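import Pool.Agent.N356.SP.DefsK

/-!
# GK19: bounds for the parameters
-/

set_option autoImplicit false

namespace Pool.Agent.N614.LK

open Finset Pool.Agent.H384R3.SPk Pool.Agent.N356.SP

lemma cb_pos (k : ℕ) : (0 : ℝ) < ((2 * k).choose k : ℝ) := by
  exact_mod_cast Nat.choose_pos (by omega)

lemma cb_succ (k : ℕ) : ((k : ℝ) + 1) * ((2 * (k + 1)).choose (k + 1) : ℝ) =
    2 * (2 * k + 1) * ((2 * k).choose k : ℝ) := by
  have h := Nat.succ_mul_centralBinom_succ k
  unfold Nat.centralBinom at h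
  exact_mod_cast h

/-- upper bound of the central binomial coefficient -/
lemma cb_le {k : ℕ} (hk : 1 ≤ k) : 2 * ((2 * k).choose k : ℝ) ≤ 4 ^ k := by
  induction k, hk using Nat.le_induction with
  | base => norm_num [Nat.choose]
  | succ k hk ih =>
    have h := cb_succ k
    have hp := cb_pos k
    have hk0 : (0 : ℝ) < (k : ℝ) + 1 := by positivity
    have h2 : ((k : ℝ) + 1) * (2 * ((2 * (k + 1)).choose (k + 1) : ℝ)) ≤ ((k : ℝ) + 1) * 4 ^ (k + 1) := by
      have : ((k : ℝ) + 1) * (2 * ((2 * (k + 1)).choose (k + 1) : ℝ)) =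
        2 * (2 * k + 1) * (2 * ((2 * k).choose k : ℝ)) := by linarith
      rw [this, pow_succ]
      have h3 : (0 : ℝ) ≤ 4 ^ k := by positivity
      nlinarith
    exact le_of_mul_le_mul_left h2 hk0

/-- lower bound of the central binomial coefficient -/
lemma cb_ge {k : ℕ} (hk : 1 ≤ k) : (16 : ℝ) ^ k ≤ 4 * k * ((2 * k).choose k : ℝ) ^ 2 := by
  induction k, hk using Nat.le_induction with
  | base => norm_num [Nat.choose]
  | succ k hk ih =>
    have h := cb_succ k
    have hp := cb_pos k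
    set c := ((2 * k).choose k : ℝ) with hc
    set c' := ((2 * (k + 1)).choose (k + 1) : ℝ) with hc'
    have hk0 : (0 : ℝ) < (k : ℝ) + 1 := by positivity
    have h2 : ((k : ℝ) + 1) * (16 : ℝ) ^ (k + 1) ≤ ((k : ℝ) + 1) * (4 * ((k + 1 : ℕ) : ℝ) * c' ^ 2) := by
      have e : ((k : ℝ) + 1) * (4 * ((k + 1 : ℕ) : ℝ) * c' ^ 2) = 4 * (((k : ℝ) + 1) * c') ^ 2 := by
        push_cast; ring
      rw [e, h, pow_succ]
      have h3 : ((k : ℝ) + 1) * (16 ^ k * 16) ≤ ((k : ℝ) + 1) * (4 * k * c ^ 2 * 16) := by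
        apply mul_le_mul_of_nonneg_left _ hk0.le
        linarith
      refine h3.trans ?_
      have h4 : (0 : ℝ) ≤ c ^ 2 := sq_nonneg c
      nlinarith
    exact le_of_mul_le_mul_left h2 hk0

lemma cK_pow {k : ℕ} (hk : 1 ≤ k) :
    cK k ^ k = (2 * (2 * (k : ℝ) - 1)) ^ k / ((2 * k).choose k : ℝ) := by
  unfold cK
  rw [one_div]
  apply Real.rpow_inv_natCast_pow _ (by omega)
  have hk1 : (1 : ℝ) ≤ k := by exact_mod_cast hk
  have : (0 : ℝ) ≤ 2 * (2 * (k : ℝ) - 1) := by linarith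
  positivity

lemma cK_nonneg {k : ℕ} (hk : 1 ≤ k) : 0 ≤ cK k := by
  unfold cK
  apply Real.rpow_nonneg
  have hk1 : (1 : ℝ) ≤ k := by exact_mod_cast hk
  have : (0 : ℝ) ≤ 2 * (2 * (k : ℝ) - 1) := by linarith
  positivity

/-- `k ≤ c_k` -/
lemma le_cK {k : ℕ} (hk : 1 ≤ k) : (k : ℝ) ≤ cK k := by
  have hk1 : (1 : ℝ) ≤ k := by exact_mod_cast hk
  rw [← pow_le_pow_iff_left₀ (by positivity) (cK_nonneg hk) (show k ≠ 0 by omega), cK_pow hk,
    le_div_iff₀ (cb_pos k)]
  have h1 := cb_le hk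
  have h2 : (1 : ℝ) / 2 ≤ (1 - 1 / (2 * k)) ^ k := by
    have h3 := one_add_mul_le_pow (a := -(1 / (2 * (k : ℝ)))) (by
      have : 1 / (2 * (k : ℝ)) ≤ 1 := by
        rw [div_le_one (by linarith)]; linarith
      linarith) k
    have h4 : 1 + (k : ℝ) * -(1 / (2 * (k : ℝ))) = 1 / 2 := by field_simp; ring
    rw [h4] at h3
    rw [sub_eq_add_neg]
    exact h3
  have h5 : (2 * (2 * (k : ℝ) - 1)) = (k : ℝ) * (4 * (1 - 1 / (2 * k))) := by field_simp; ring
  rw [h5, mul_pow, mul_pow]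
  apply mul_le_mul_of_nonneg_left _ (by positivity)
  have h6 : (0 : ℝ) ≤ 4 ^ k := by positivity
  nlinarith

/-- `k log c_k ≤ (k + 1) log k` -/
lemma log_cK_le {k : ℕ} (hk : 4 ≤ k) : (k : ℝ) * Real.log (cK k) ≤ (k + 1) * Real.log k := by
  have hk1 : (4 : ℝ) ≤ k := by exact_mod_cast hk
  have hk0 : 1 ≤ k := by omega
  have hK0 : 0 < cK k := by
    have := le_cK hk0
    linarith
  have h1 : (cK k ^ k) ^ 2 ≤ ((k : ℝ) ^ (k + 1)) ^ 2 := by
    rw [cK_pow hk0, div_pow, div_le_iff₀ (by have := cb_pos k; positivity)]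
    have h2 := cb_ge hk0
    have h3 : ((2 * (2 * (k : ℝ) - 1)) ^ k) ^ 2 ≤ ((4 * (k : ℝ)) ^ k) ^ 2 := by
      apply pow_le_pow_left₀ (by apply pow_nonneg; linarith)
      apply pow_le_pow_left₀ (by linarith)
      linarith
    refine h3.trans ?_
    have h4 : ((4 * (k : ℝ)) ^ k) ^ 2 = 16 ^ k * (k ^ k) ^ 2 := by
      rw [mul_pow, mul_pow, ← pow_mul, mul_comm k 2, pow_mul]; norm_num
    rw [h4]
    have h5 : (4 : ℝ) * k ≤ (k : ℝ) ^ 2 := by nlinarith
    have h6 : 0 ≤ ((2 * k).choose k : ℝ) ^ 2 := sq_nonneg _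
    calc (16 : ℝ) ^ k * (k ^ k) ^ 2 ≤ (4 * k * ((2 * k).choose k : ℝ) ^ 2) * (k ^ k) ^ 2 :=
          mul_le_mul_of_nonneg_right h2 (by positivity)
      _ ≤ (k ^ 2 * ((2 * k).choose k : ℝ) ^ 2) * (k ^ k) ^ 2 := by
          apply mul_le_mul_of_nonneg_right _ (by positivity)
          exact mul_le_mul_of_nonneg_right h5 h6
      _ = ((k : ℝ) ^ (k + 1)) ^ 2 * ((2 * k).choose k : ℝ) ^ 2 := by ring
  have h2 : cK k ^ k ≤ (k : ℝ) ^ (k + 1) :=
    (pow_le_pow_iff_left₀ (by positivity) (by positivity) (by norm_num)).1 h1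
  have h3 := Real.log_le_log (by positivity) h2
  rw [Real.log_pow, Real.log_pow] at h3
  push_cast at h3
  exact h3

/-- third inequality -/
lemma exp_le_cK {k : ℕ} (hk : 6 ≤ k) :
    Real.exp (2 * (13 / (10 * (k : ℝ))) * (1 - 13 / (10 * (k : ℝ)) / 3)) ≤
      cK k * (13 / (10 * (k : ℝ))) := by
  have hk0 : 1 ≤ k := by omega
  have hkr : (6 : ℝ) ≤ k := by exact_mod_cast hk
  have he := Real.exp_one_lt_d9
  have hK := cK_pow hk0
  have hK0 := cK_nonneg hk0
  rcases Nat.lt_or_ge k 10 with h10 | h10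
  · have key : ∀ c : ℝ, (k : ℝ) * (2 * (13 / (10 * (k : ℝ))) * (1 - 13 / (10 * (k : ℝ)) / 3)) ≤ c →
        Real.exp c ≤ (cK k * (13 / (10 * (k : ℝ)))) ^ k →
        Real.exp (2 * (13 / (10 * (k : ℝ))) * (1 - 13 / (10 * (k : ℝ)) / 3)) ≤
          cK k * (13 / (10 * (k : ℝ))) := by
      intro c h1 h2
      rw [← pow_le_pow_iff_left₀ (Real.exp_pos _).le (by positivity) (show k ≠ 0 by omega),
        ← Real.exp_nat_mul]
      exact (Real.exp_le_exp.2 h1).trans h2
    rw [mul_pow, hK] at key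
    have e5 : Real.exp (5 / 2) ≤ 253 / 20 := by
      have h1 : Real.exp (5 / 2) ^ 2 ≤ (253 / 20 : ℝ) ^ 2 := by
        rw [← Real.exp_nat_mul]
        have : ((2 : ℕ) : ℝ) * (5 / 2) = ((5 : ℕ) : ℝ) * 1 := by norm_num
        rw [this, Real.exp_nat_mul]
        refine (pow_le_pow_left₀ (Real.exp_pos _).le he.le 5).trans ?_
        norm_num
      exact (pow_le_pow_iff_left₀ (Real.exp_pos _).le (by norm_num) (by norm_num)).1 h1
    have e26 : Real.exp (13 / 5) ≤ 14 := by
      have h1 : Real.exp (13 / 5) ^ 5 ≤ (14 : ℝ) ^ 5 := by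
        rw [← Real.exp_nat_mul]
        have : ((5 : ℕ) : ℝ) * (13 / 5) = ((13 : ℕ) : ℝ) * 1 := by norm_num
        rw [this, Real.exp_nat_mul]
        refine (pow_le_pow_left₀ (Real.exp_pos _).le he.le 13).trans ?_
        norm_num
      exact (pow_le_pow_iff_left₀ (Real.exp_pos _).le (by norm_num) (by norm_num)).1 h1
    have hc : k = 6 ∨ k = 7 ∨ k = 8 ∨ k = 9 := by omega
    rcases hc with h | h | h | h
    · subst h
      refine key (5 / 2) (by norm_num) (e5.trans ?_)
      norm_num [Nat.choose]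
    · subst h
      refine key (13 / 5) (by norm_num) (e26.trans ?_)
      norm_num [Nat.choose]
    · subst h
      refine key (13 / 5) (by norm_num) (e26.trans ?_)
      norm_num [Nat.choose]
    · subst h
      refine key (13 / 5) (by norm_num) (e26.trans ?_)
      norm_num [Nat.choose]
  · have hkr10 : (10 : ℝ) ≤ k := by exact_mod_cast h10
    have h1 : 2 * (13 / (10 * (k : ℝ))) * (1 - 13 / (10 * (k : ℝ)) / 3) ≤ 13 / 50 := by
      have h2 : 13 / (10 * (k : ℝ)) ≤ 13 / 100 := by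
        apply div_le_div_of_nonneg_left (by norm_num) (by norm_num)
        linarith
      have h3 : 0 ≤ 13 / (10 * (k : ℝ)) := by positivity
      nlinarith
    have h2 : Real.exp (13 / 50) ≤ 13 / 10 := by
      have h1 : Real.exp (13 / 50) ^ 50 ≤ (13 / 10 : ℝ) ^ 50 := by
        rw [← Real.exp_nat_mul]
        have : ((50 : ℕ) : ℝ) * (13 / 50) = ((13 : ℕ) : ℝ) * 1 := by norm_num
        rw [this, Real.exp_nat_mul]
        refine (pow_le_pow_left₀ (Real.exp_pos _).le he.le 13).trans ?_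
        norm_num
      exact (pow_le_pow_iff_left₀ (Real.exp_pos _).le (by norm_num) (by norm_num)).1 h1
    refine (Real.exp_le_exp.2 h1).trans (h2.trans ?_)
    have h3 := le_cK hk0
    have h4 : (13 : ℝ) / 10 = k * (13 / (10 * k)) := by field_simp
    rw [h4]
    exact mul_le_mul_of_nonneg_right h3 (by positivity)

theorem goodK {k n : ℕ} (hk : 6 ≤ k) (hn : k ≤ n) {b : ℝ} (hb : (n : ℝ) ^ b = cK k) :
    Good' n b (cK k) ∧ (1 - 1 / (n : ℝ)) * b ≤ 1 ∧
      (1 + (1 - 1 / (n : ℝ)) * (13 / (10 * k))) ^ (1 + b) ≤ cK k * (13 / (10 * k)) := by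
  have hk0 : 1 ≤ k := by omega
  have hkr : (6 : ℝ) ≤ k := by exact_mod_cast hk
  have hnr : (k : ℝ) ≤ n := by exact_mod_cast hn
  have hn6 : (6 : ℝ) ≤ n := hkr.trans hnr
  have hn0 : (0 : ℝ) < n := by linarith
  have he := Real.exp_one_lt_d9
  have hKk := le_cK hk0
  have hK6 : 6 ≤ cK k := hkr.trans hKk
  have hK0 : 0 < cK k := by linarith
  have hlog : b * Real.log n = Real.log (cK k) := by
    rw [← hb, Real.log_rpow hn0]
  have hln : 0 < Real.log n := Real.log_pos (by linarith)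
  have hlk : 0 < Real.log k := Real.log_pos (by linarith)
  have hlK1 : 1 ≤ Real.log (cK k) := by
    rw [Real.le_log_iff_exp_le hK0]
    linarith
  have hb0 : 0 < b := by
    by_contra h
    push Not at h
    have := mul_nonpos_of_nonpos_of_nonneg h hln.le
    linarith
  -- first inequality
  have h1 : 1 ≤ ((n : ℝ) - 1) * b := by
    have h2 : Real.log n ≤ n - 1 := Real.log_le_sub_one_of_pos hn0
    have h3 : Real.log n ≤ ((n : ℝ) - 1) * b * Real.log n := by
      rw [mul_assoc, hlog]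
      nlinarith
    by_contra h
    push Not at h
    have := mul_lt_mul_of_pos_right h hln
    linarith
  -- second inequality
  have h2 : ((n : ℝ) - 1) * b ≤ n := by
    have h3 := log_cK_le (k := k) (by omega)
    have h4 : Real.log k ≤ k - 1 := Real.log_le_sub_one_of_pos (by linarith)
    have h5 : Real.log k + (1 - k / n) ≤ Real.log n := by
      have h6 := Real.log_le_sub_one_of_pos (show 0 < (k : ℝ) / n by positivity)
      rw [Real.log_div (by linarith) (by linarith)] at h6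
      linarith
    have h6 : (n : ℝ) * Real.log k + (n - k) ≤ n * Real.log n := by
      have := mul_le_mul_of_nonneg_left h5 hn0.le
      have e : (n : ℝ) * (Real.log k + (1 - k / n)) = n * Real.log k + (n - k) := by
        field_simp
      linarith
    have h7 : ((n : ℝ) - 1) * b * Real.log n ≤ n * Real.log n := by
      rw [mul_assoc, hlog]
      have h8 : (k : ℝ) * (((n : ℝ) - 1) * Real.log (cK k)) ≤ k * (n * Real.log n) := by
        have h9 : (k : ℝ) * (((n : ℝ) - 1) * Real.log (cK k)) ≤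
            ((n : ℝ) - 1) * ((k + 1) * Real.log k) := by
          have := mul_le_mul_of_nonneg_left h3 (show (0 : ℝ) ≤ (n : ℝ) - 1 by linarith)
          linarith
        have h10 : (k : ℝ) * (n * Real.log k + (n - k)) ≤ k * (n * Real.log n) :=
          mul_le_mul_of_nonneg_left h6 (by linarith)
        refine h9.trans (le_trans ?_ h10)
        -- (n-1)(k+1) L ≤ k n L + k (n-k)
        have h11 : ((n : ℝ) - k) * Real.log k ≤ (n - k) * k := by
          apply mul_le_mul_of_nonneg_left _ (by linarith)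
          linarith
        nlinarith
      exact le_of_mul_le_mul_left h8 (by linarith)
    exact le_of_mul_le_mul_right h7 hln
  have hn1 : (1 : ℝ) / n ≤ 1 / 6 := one_div_le_one_div_of_le (by norm_num) hn6
  have hn1' : (0 : ℝ) < 1 / n := by positivity
  have hnn : (1 : ℝ) / n * n = 1 := by field_simp
  have h2' : (1 - 1 / (n : ℝ)) * b ≤ 1 := by
    have e : (1 - 1 / (n : ℝ)) * b = (((n : ℝ) - 1) * b) / n := by
      field_simp
    rw [e, div_le_one hn0]
    exact h2
  have ha0 : 0 < 1 - 1 / (n : ℝ) := by linarith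
  have h3 : (1 - 1 / (n : ℝ)) * (1 + b) ≤ 2 := by
    have : (1 - 1 / (n : ℝ)) * (1 + b) = (1 - 1 / (n : ℝ)) + (1 - 1 / (n : ℝ)) * b := by ring
    rw [this]; linarith
  refine ⟨⟨by linarith, hb0, hb, h1, ?_⟩, h2', ?_⟩
  · have e1 : (1 - 1 / (n : ℝ)) / ((1 - 1 / (n : ℝ)) * b) = 1 / b := by
      rw [div_mul_eq_div_div, div_self ha0.ne']
    rw [e1, le_div_iff₀ (by positivity)]
    have h4 : (1 + 1 / b) ^ b ≤ Real.exp 1 := by
      have h5 : 1 + 1 / b ≤ Real.exp (1 / b) := by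
        have := Real.add_one_le_exp (1 / b)
        linarith
      have h6 := Real.rpow_le_rpow (by positivity) h5 hb0.le
      rw [← Real.exp_mul] at h6
      have e2 : 1 / b * b = 1 := by field_simp
      rw [e2] at h6
      exact h6
    rw [Real.rpow_add (by positivity), Real.rpow_one]
    have h5 : (1 + 1 / b) * ((1 - 1 / (n : ℝ)) * b) = (1 - 1 / (n : ℝ)) * (1 + b) := by
      field_simp; ring
    calc (1 + 1 / b) * (1 + 1 / b) ^ b * ((1 - 1 / (n : ℝ)) * b)
        = (1 + 1 / b) ^ b * ((1 + 1 / b) * ((1 - 1 / (n : ℝ)) * b)) := by ring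
      _ = (1 + 1 / b) ^ b * ((1 - 1 / (n : ℝ)) * (1 + b)) := by rw [h5]
      _ ≤ Real.exp 1 * 2 := by
          apply mul_le_mul h4 h3 (by positivity) (Real.exp_pos _).le
      _ ≤ cK k := by linarith
  · set Y : ℝ := 13 / (10 * (k : ℝ)) with hY
    have hY0 : 0 < Y := by positivity
    have hY1 : Y ≤ 13 / 60 := by
      rw [hY]
      apply div_le_div_of_nonneg_left (by norm_num) (by norm_num)
      linarith
    set a : ℝ := 1 - 1 / (n : ℝ) with ha
    have ha1 : a ≤ 1 := by linarith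
    have ha2 : 5 / 6 ≤ a := by linarith
    have hx0 : 0 ≤ a * Y := by positivity
    have hx1 : a * Y ≤ 1 / 4 := by nlinarith
    have h4 : 1 + a * Y ≤ Real.exp (a * Y * (1 - Y / 3)) := by
      have h5 : a * Y - 2 / 5 * (a * Y) ^ 2 ≤ a * Y * (1 - Y / 3) := by
        have : a * Y * (Y * (1 / 3)) ≤ a * Y * (2 / 5 * (a * Y)) := by
          apply mul_le_mul_of_nonneg_left _ hx0
          nlinarith
        nlinarith
      have hy0 : 0 ≤ a * Y - 2 / 5 * (a * Y) ^ 2 := by nlinarith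
      refine le_trans ?_ ((Real.quadratic_le_exp_of_nonneg hy0).trans (Real.exp_le_exp.2 h5))
      have h6 : 0 ≤ (a * Y) ^ 2 * (1 / 4 - a * Y) := mul_nonneg (sq_nonneg _) (by linarith)
      have h7 : 0 ≤ (a * Y) ^ 4 := by positivity
      nlinarith
    have h5 := Real.rpow_le_rpow (by positivity) h4 (show 0 ≤ 1 + b by linarith)
    refine h5.trans ?_
    rw [← Real.exp_mul]
    refine le_trans (Real.exp_le_exp.2 ?_) (exp_le_cK hk)
    have h6 : 0 ≤ Y * (1 - Y / 3) := by
      apply mul_nonneg hY0.le; linarith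
    have h7 : a * Y * (1 - Y / 3) * (1 + b) = (a * (1 + b)) * (Y * (1 - Y / 3)) := by ring
    have h8 : 2 * Y * (1 - Y / 3) = 2 * (Y * (1 - Y / 3)) := by ring
    rw [h7, h8]
    exact mul_le_mul_of_nonneg_right h3 h6

end Pool.Agent.N614.LK
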